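import Pool.Agent.helper38.TA.SpecK
import Pool.Agent.helper14.ZT.GVC

/-! # ta:GVT: the space of the test functions `gT` -/

set_option autoImplicit false

open Complex MeasureTheory Set

namespace Pool.Agent.TA

open Pool.Agent.BA (Par GG kl kf vf fV Bw Den PP wt lam gpf rgz)
open Pool.Agent.ZT (fP Bn NN Cen GF hm Sqf cmf lamA muA prm Eta NwD Cof thC LaC LfC FEQ Prs GVC_dom)

theorem GVT_pow {x : ℝ} (hx : 0 < x) : x ^ (-(1 / 2) : ℝ) ≤ x ^ (-(1 / 20) : ℝ) + x ^ (-(3 / 5) : ℝ) := by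
  have p1 : 0 ≤ x ^ (-(1 / 20) : ℝ) := Real.rpow_nonneg hx.le _
  have p2 : 0 ≤ x ^ (-(3 / 5) : ℝ) := Real.rpow_nonneg hx.le _
  rcases le_total x 1 with h | h
  · have := Real.rpow_le_rpow_of_exponent_ge hx h (show (-(3 / 5) : ℝ) ≤ -(1 / 2) by norm_num)
    linarith
  · have := Real.rpow_le_rpow_of_exponent_le h (show (-(1 / 2) : ℝ) ≤ -(1 / 20) by norm_num)
    linarith

theorem GVT_nm {t : ℝ} (ht : 0 ≤ t) (j : ℕ) (hj : j ≤ 7) : ‖(1 / 2 : ℂ) + t * I‖ ^ j ≤ (1 + t) ^ 7 := by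
  have h1 : ‖(1 / 2 : ℂ) + t * I‖ ≤ 1 + t := by
    refine (norm_add_le _ _).trans ?_
    rw [norm_mul, Complex.norm_I, mul_one, Complex.norm_real, Real.norm_of_nonneg ht]
    have : ‖(1 / 2 : ℂ)‖ = 1 / 2 := by norm_num
    rw [this]
    linarith
  calc ‖(1 / 2 : ℂ) + t * I‖ ^ j ≤ (1 + t) ^ j := pow_le_pow_left₀ (norm_nonneg _) h1 j
    _ ≤ (1 + t) ^ 7 := pow_le_pow_right₀ (by linarith) hj

theorem GVT_sum {n : ℕ} {μ : Fin n → ℝ} {t w : ℕ → ℝ} (ht : ∀ k, 0 ≤ t k) (hw : ∀ k, (1 + t k) ^ 7 ≤ w k)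
    (j : ℕ) (hj : j ≤ 7) (τ : ℕ →₀ ℝ) :
    τ.sum (fun k a => |a| * ‖(1 / 2 : ℂ) + t k * I‖ ^ j * gh μ (t k)) ≤ sg μ t w τ := by
  unfold sg
  refine Finset.sum_le_sum fun k _ => ?_
  refine mul_le_mul_of_nonneg_right ?_ (norm_nonneg _)
  refine mul_le_mul_of_nonneg_left ?_ (abs_nonneg _)
  exact (GVT_nm (ht k) j hj).trans (hw k)

theorem GVT (hLAT : LAT_stmt) (hGDT : GDT_stmt) (hTAU : TAU_stmt) (zBNW : Pool.Agent.ZT.BNW_stmt) : GVT_stmt := by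
  intro n μ t w D hμ hS hw7
  have hμ1 : Par 1 μ := ⟨le_trans (by norm_num) hμ.1, hμ.2⟩
  have hn : 29 ≤ n := hμ.1
  obtain ⟨CA, hCA, hLA⟩ := hLAT n 7 μ hμ1 (by omega)
  obtain ⟨CB, hCB, hB⟩ := zBNW n
  have hD := hS.D0
  set C3 : ℝ := 2 * (CA * CB + 4 * D) with hC3
  have hC30 : 0 < C3 := by rw [hC3]; positivity
  have hpk : ∀ (L : ℝ) (v : VT), 1 ≤ L →
      IntegrableOn (fun x => Bn n L x * ‖gT μ t 0 v x‖) (Ioi 0) ∧ sg μ t w v.2.2 ≤ 4 * D * MX n L (gT μ t 0 v) ∧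
      0 ≤ MX n L (gT μ t 0 v) ∧ (∀ x : ℝ, 0 < x → x ≤ 1 → Bn n L x = x ^ (-(1 / 20) : ℝ)) ∧
      ∀ j : ℕ, j ≤ 7 → ∀ x : ℝ, 0 < x →
        ‖gT μ t j v x‖ ≤ C3 * (x ^ (-(1 / 20) : ℝ) + x ^ (-(3 / 5) : ℝ)) * MX n L (gT μ t 0 v) := by
    intro L v hL
    obtain ⟨hBc, -, hB1, hB2, hB3, hB4⟩ := hB L hL
    have hBpos : ∀ x, 0 < x → 0 < Bn n L x := fun x hx => (hB1 x hx).1
    have hBlow : ∀ x, 0 < x → x ^ (-(1 / 20) : ℝ) ≤ CB * Bn n L x := fun x hx => (hB1 x hx).2.2.2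
    have hB40 : ∀ x, 0 < x → x ≤ 1 → Bn n L x = x ^ (-(1 / 20) : ℝ) := fun x hx hx1 => (hB4 x hx hx1).1
    have hcg : ContinuousOn (fun x => ‖gT μ t 0 v x‖) (Ioi 0) :=
      ContinuousOn.norm fun x hx => (((hGDT n 0 μ t hμ1).1.1 v x hx).continuousAt.continuousWithinAt)
    obtain ⟨Cf1, hf1⟩ := (hGDT n 0 μ t hμ1).1.2.1 v (3 / 5) (by norm_num)
    obtain ⟨Cf2, hf2⟩ := (hGDT n 0 μ t hμ1).1.2.1 v 2 (by norm_num)
    have hintg := (GVC_dom hBc hBpos hB2 hB40 hcg (fun x => norm_nonneg _) hf1 hf2).1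
    obtain ⟨hint1, hT⟩ := hTAU n μ t w D hμ1 hS L v hL
    set M := MX n L (gT μ t 0 v) with hM
    have hMdef : M = ∫ x in Ioi (0 : ℝ), Bn n L x * ‖gT μ t 0 v x‖ := rfl
    have hM0 : 0 ≤ M := by
      rw [hMdef]
      apply setIntegral_nonneg measurableSet_Ioi
      intro x hx
      exact mul_nonneg (hBpos x hx).le (norm_nonneg _)
    have hτ : sg μ t w v.2.2 ≤ 4 * D * M := by
      refine hT.trans ?_
      refine mul_le_mul_of_nonneg_left ?_ (by positivity)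
      rw [hMdef]
      refine setIntegral_mono_on hint1 hintg measurableSet_Ioi fun x hx => ?_
      exact mul_le_mul_of_nonneg_left (Complex.abs_re_le_norm _) (hBpos x hx).le
    have hwt : ∀ g : ℝ → ℝ, (∀ x, |g x| ≤ ‖gT μ t 0 v x‖) →
        (∫ y in Ioi (0 : ℝ), y ^ (-(1 / 20) : ℝ) * |g y|) ≤ CB * M := by
      intro g hg
      have s1 : (∫ y in Ioi (0 : ℝ), y ^ (-(1 / 20) : ℝ) * |g y|) ≤
          ∫ y in Ioi (0 : ℝ), CB * (Bn n L y * ‖gT μ t 0 v y‖) := by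
        apply integral_mono_of_nonneg
        · refine (ae_restrict_iff' measurableSet_Ioi).2 (Filter.Eventually.of_forall (fun x hx => ?_))
          exact mul_nonneg (Real.rpow_nonneg (le_of_lt hx) _) (abs_nonneg _)
        · exact hintg.const_mul CB
        · refine (ae_restrict_iff' measurableSet_Ioi).2 (Filter.Eventually.of_forall (fun x hx => ?_))
          have hx0 : 0 < x := hx
          have h1 := hBlow x hx0
          have hBp := hBpos x hx0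
          calc x ^ (-(1 / 20) : ℝ) * |g x| ≤ (CB * Bn n L x) * ‖gT μ t 0 v x‖ :=
                mul_le_mul h1 (hg x) (abs_nonneg _) (by positivity)
            _ = CB * (Bn n L x * ‖gT μ t 0 v x‖) := by ring
      refine le_trans s1 ?_
      rw [integral_const_mul, ← hMdef]
    refine ⟨hintg, hτ, hM0, hB40, fun j hj x hx => ?_⟩
    have p1 : 0 ≤ x ^ (-(1 / 20) : ℝ) := Real.rpow_nonneg hx.le _
    have p2 : 0 ≤ x ^ (-(3 / 5) : ℝ) := Real.rpow_nonneg hx.le _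
    have p3 : 0 ≤ x ^ (-(1 / 2) : ℝ) := Real.rpow_nonneg hx.le _
    have hsum := (GVT_sum (μ := μ) hS.tn hw7 j hj v.2.2).trans hτ
    have hgen : ∀ a b : ℝ, b ≤ CB * M →
        a ≤ CA * x ^ (-(1 / 20) : ℝ) * b +
          x ^ (-(1 / 2) : ℝ) * v.2.2.sum (fun k a => |a| * ‖(1 / 2 : ℂ) + t k * I‖ ^ j * gh μ (t k)) →
        a ≤ (CA * CB + 4 * D) * (x ^ (-(1 / 20) : ℝ) + x ^ (-(3 / 5) : ℝ)) * M := by
      intro a b hb ha
      refine ha.trans ?_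
      have q1 : CA * x ^ (-(1 / 20) : ℝ) * b ≤ CA * x ^ (-(1 / 20) : ℝ) * (CB * M) :=
        mul_le_mul_of_nonneg_left hb (by positivity)
      have q2 : x ^ (-(1 / 2) : ℝ) * v.2.2.sum (fun k a => |a| * ‖(1 / 2 : ℂ) + t k * I‖ ^ j * gh μ (t k)) ≤
          (x ^ (-(1 / 20) : ℝ) + x ^ (-(3 / 5) : ℝ)) * (4 * D * M) := by
        refine (mul_le_mul_of_nonneg_left hsum p3).trans ?_
        exact mul_le_mul_of_nonneg_right (GVT_pow hx) (by positivity)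
      have q3 : 0 ≤ CA * CB * x ^ (-(3 / 5) : ℝ) * M := by positivity
      calc _ ≤ CA * x ^ (-(1 / 20) : ℝ) * (CB * M) + (x ^ (-(1 / 20) : ℝ) + x ^ (-(3 / 5) : ℝ)) * (4 * D * M) :=
            add_le_add q1 q2
        _ ≤ CA * x ^ (-(1 / 20) : ℝ) * (CB * M) + (x ^ (-(1 / 20) : ℝ) + x ^ (-(3 / 5) : ℝ)) * (4 * D * M) +
            CA * CB * x ^ (-(3 / 5) : ℝ) * M := by linarith
        _ = _ := by ring
    obtain ⟨hre, him⟩ := hLA j hj t v x hx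
    have r1 := hgen _ _ (hwt (fun y => (gT μ t 0 v y).re) fun y => Complex.abs_re_le_norm _) hre
    have r2 := hgen _ _ (hwt (fun y => (gT μ t 0 v y).im) fun y => Complex.abs_im_le_norm _) him
    calc ‖gT μ t j v x‖ ≤ |(gT μ t j v x).re| + |(gT μ t j v x).im| := Complex.norm_le_abs_re_add_abs_im _
      _ ≤ _ := add_le_add r1 r2
      _ = C3 * (x ^ (-(1 / 20) : ℝ) + x ^ (-(3 / 5) : ℝ)) * M := by rw [hC3]; ring
  refine ⟨4 * D + 6 * C3, ⟨by positivity, ?_, ?_, ?_, ?_, ?_, ?_, ?_⟩, ?_⟩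
  · intro j v x hx
    exact (hGDT n j μ t hμ1).1.1 v x hx
  · intro j v σ hσ
    exact (hGDT n j μ t hμ1).1.2.1 v σ hσ
  · intro j v w' x
    exact (hGDT n j μ t hμ1).1.2.2.1 v w' x
  · intro j c v x
    exact (hGDT n j μ t hμ1).1.2.2.2 c v x
  · intro L v hL
    exact (hpk L v hL).1
  · intro L v hL j hj x hx
    obtain ⟨-, -, hM0, -, hbd⟩ := hpk L v hL
    refine (hbd j hj x hx).trans ?_
    apply mul_le_mul_of_nonneg_right _ hM0
    have p1 : 0 ≤ x ^ (-(1 / 20) : ℝ) := Real.rpow_nonneg hx.le _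
    have p2 : 0 ≤ x ^ (-(3 / 5) : ℝ) := Real.rpow_nonneg hx.le _
    apply mul_le_mul_of_nonneg_right _ (by positivity)
    linarith
  · intro L v hL Y hY hY1
    obtain ⟨hintg, -, hM0, hB40, hbd⟩ := hpk L v hL
    set M := MX n L (gT μ t 0 v) with hM
    have hii : IntervalIntegrable (fun x : ℝ => x ^ (-(13 / 20) : ℝ)) volume 0 Y :=
      intervalIntegral.intervalIntegrable_rpow' (by norm_num)
    have hio : IntegrableOn (fun x : ℝ => 2 * C3 * M * x ^ (-(13 / 20) : ℝ)) (Ioc 0 Y) :=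
      ((intervalIntegrable_iff_integrableOn_Ioc_of_le hY.le).1 hii).const_mul _
    have h1 : ∫ x in Ioc 0 Y, Bn n L x * ‖gT μ t 0 v x‖ ≤ ∫ x in Ioc 0 Y, 2 * C3 * M * x ^ (-(13 / 20) : ℝ) := by
      refine setIntegral_mono_on (hintg.mono_set Ioc_subset_Ioi_self) hio measurableSet_Ioc fun x hx => ?_
      have hx0 : 0 < x := hx.1
      have hx1 : x ≤ 1 := hx.2.trans hY1
      rw [hB40 x hx0 hx1]
      have e1 : x ^ (-(1 / 20) : ℝ) ≤ x ^ (-(3 / 5) : ℝ) :=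
        Real.rpow_le_rpow_of_exponent_ge hx0 hx1 (by norm_num)
      have e2 : x ^ (-(13 / 20) : ℝ) = x ^ (-(1 / 20) : ℝ) * x ^ (-(3 / 5) : ℝ) := by
        rw [← Real.rpow_add hx0]
        norm_num
      have e3 : 0 ≤ x ^ (-(1 / 20) : ℝ) := by positivity
      calc x ^ (-(1 / 20) : ℝ) * ‖gT μ t 0 v x‖ ≤
            x ^ (-(1 / 20) : ℝ) * (C3 * (x ^ (-(1 / 20) : ℝ) + x ^ (-(3 / 5) : ℝ)) * M) :=
            mul_le_mul_of_nonneg_left (hbd 0 (by norm_num) x hx0) e3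
        _ ≤ x ^ (-(1 / 20) : ℝ) * (C3 * (x ^ (-(3 / 5) : ℝ) + x ^ (-(3 / 5) : ℝ)) * M) := by
            apply mul_le_mul_of_nonneg_left _ e3
            apply mul_le_mul_of_nonneg_right _ hM0
            apply mul_le_mul_of_nonneg_left _ hC30.le
            linarith
        _ = 2 * C3 * M * x ^ (-(13 / 20) : ℝ) := by rw [e2]; ring
    have h2 : ∫ x in Ioc 0 Y, 2 * C3 * M * x ^ (-(13 / 20) : ℝ) = 2 * C3 * M * (Y ^ (7 / 20 : ℝ) / (7 / 20)) := by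
      rw [integral_const_mul, ← intervalIntegral.integral_of_le hY.le, integral_rpow (Or.inl (by norm_num))]
      rw [Real.zero_rpow (by norm_num)]
      norm_num
    rw [h2] at h1
    refine h1.trans ?_
    have hYp : 0 ≤ Y ^ (7 / 20 : ℝ) := by positivity
    have : 2 * C3 * M * (Y ^ (7 / 20 : ℝ) / (7 / 20)) = (40 / 7 * C3) * Y ^ (7 / 20 : ℝ) * M := by ring
    rw [this]
    apply mul_le_mul_of_nonneg_right _ hM0
    apply mul_le_mul_of_nonneg_right _ hYp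
    linarith
  · intro L v hL
    obtain ⟨-, hτ, hM0, -, -⟩ := hpk L v hL
    refine hτ.trans ?_
    apply mul_le_mul_of_nonneg_right _ hM0
    linarith

end Pool.Agent.TA
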