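import Pool.Agent.helper38.TA.SpecK
import Pool.Agent.helper72.BA.VD

/-! # ta:PHB: the dual functions -/

set_option autoImplicit false

open Complex MeasureTheory Set

namespace Pool.Agent.TA

open Pool.Agent.BA (Par GG kl kf vf fV Bw Den PP wt lam gpf rgz VD_bd)

theorem PHB_q (b : ℝ) : Integrable (fun v : ℝ => Real.exp (b * v - v ^ 2 / 2)) := by
  have h := (integrable_cexp_quadratic' (b := (-(1 / 2) : ℂ)) (by norm_num) (b : ℂ) 0).norm
  refine h.congr (Filter.Eventually.of_forall fun v => ?_)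
  show ‖Complex.exp ((-(1 / 2) : ℂ) * (v : ℂ) ^ 2 + (b : ℂ) * v + 0)‖ = _
  have h1 : (-(1 / 2) : ℂ) * (v : ℂ) ^ 2 + b * v + 0 = ((b * v - v ^ 2 / 2 : ℝ) : ℂ) := by
    push_cast
    ring
  rw [Complex.norm_exp, h1, Complex.ofReal_re]

theorem PHB_g (b : ℝ) : Integrable (fun v : ℝ => Real.exp (b * |v| - v ^ 2 / 2)) := by
  have hc : Continuous fun v : ℝ => Real.exp (b * |v| - v ^ 2 / 2) := by fun_prop
  refine ((PHB_q b).add (PHB_q (-b))).mono' hc.aestronglyMeasurable (Filter.Eventually.of_forall fun v => ?_)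
  rw [Real.norm_eq_abs, abs_of_pos (Real.exp_pos _)]
  show _ ≤ Real.exp (b * v - v ^ 2 / 2) + Real.exp (-b * v - v ^ 2 / 2)
  have p1 := Real.exp_pos (b * v - v ^ 2 / 2)
  have p2 := Real.exp_pos (-b * v - v ^ 2 / 2)
  rcases le_total 0 v with h | h
  · rw [abs_of_nonneg h]
    linarith
  · rw [abs_of_nonpos h, show b * -v - v ^ 2 / 2 = -b * v - v ^ 2 / 2 by ring]
    linarith

theorem PHB_peetre {A c t τ v : ℝ} (ht : 0 ≤ t) (hc : 0 ≤ c) (hv1 : |τ| ≤ t + |v|) (hv2 : t ≤ |τ| + |v|) :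
    (1 + |τ|) ^ A * Real.exp (-(c * |τ|)) ≤ (1 + t) ^ A * Real.exp (-(c * t)) * Real.exp ((|A| + c) * |v|) := by
  have hE : 1 + |v| ≤ Real.exp |v| := by
    have := Real.add_one_le_exp |v|
    linarith
  have hτ := abs_nonneg τ
  have hv := abs_nonneg v
  have h1 : Real.exp (-(c * |τ|)) ≤ Real.exp (-(c * t)) * Real.exp (c * |v|) := by
    rw [← Real.exp_add]
    exact Real.exp_le_exp.2 (by nlinarith)
  have h2 : (1 + |τ|) ^ A ≤ (1 + t) ^ A * Real.exp (|A| * |v|) := by
    rcases le_total 0 A with hA | hA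
    · rw [abs_of_nonneg hA]
      have h3 : 1 + |τ| ≤ (1 + t) * Real.exp |v| := by
        have : (1 + t) * (1 + |v|) ≤ (1 + t) * Real.exp |v| := mul_le_mul_of_nonneg_left hE (by linarith)
        nlinarith
      calc (1 + |τ|) ^ A ≤ ((1 + t) * Real.exp |v|) ^ A := Real.rpow_le_rpow (by positivity) h3 hA
        _ = (1 + t) ^ A * Real.exp (A * |v|) := by
            rw [Real.mul_rpow (by linarith) (Real.exp_pos _).le, ← Real.exp_mul, mul_comm |v|]
    · rw [abs_of_nonpos hA]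
      have h3 : (1 + t) * Real.exp (-|v|) ≤ 1 + |τ| := by
        have h4 : 1 + t ≤ (1 + |τ|) * Real.exp |v| := by
          have : (1 + |τ|) * (1 + |v|) ≤ (1 + |τ|) * Real.exp |v| := mul_le_mul_of_nonneg_left hE (by linarith)
          nlinarith
        calc (1 + t) * Real.exp (-|v|) ≤ ((1 + |τ|) * Real.exp |v|) * Real.exp (-|v|) :=
              mul_le_mul_of_nonneg_right h4 (Real.exp_pos _).le
          _ = 1 + |τ| := by rw [mul_assoc, ← Real.exp_add, add_neg_cancel, Real.exp_zero, mul_one]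
      calc (1 + |τ|) ^ A ≤ ((1 + t) * Real.exp (-|v|)) ^ A :=
            Real.rpow_le_rpow_of_nonpos (mul_pos (by linarith) (Real.exp_pos _)) h3 hA
        _ = (1 + t) ^ A * Real.exp (-A * |v|) := by
            rw [Real.mul_rpow (by linarith) (Real.exp_pos _).le, ← Real.exp_mul]
            congr 2
            ring
  calc (1 + |τ|) ^ A * Real.exp (-(c * |τ|)) ≤
        ((1 + t) ^ A * Real.exp (|A| * |v|)) * (Real.exp (-(c * t)) * Real.exp (c * |v|)) :=
        mul_le_mul h2 h1 (Real.exp_pos _).le (by positivity)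
    _ = (1 + t) ^ A * Real.exp (-(c * t)) * (Real.exp (|A| * |v|) * Real.exp (c * |v|)) := by ring
    _ = _ := by
      rw [← Real.exp_add]
      congr 2
      ring

/-- the Gaussian integral -/
theorem PHB_gauss (c : ℂ) : Integrable (fun u : ℝ => Complex.exp (-(1 / 2) * (u : ℂ) ^ 2 + c * u + 0)) ∧
    ‖∫ u : ℝ, Complex.exp (-(1 / 2) * (u : ℂ) ^ 2 + c * u + 0)‖ = √(2 * Real.pi) * Real.exp ((c ^ 2 / 2).re) := by
  refine ⟨integrable_cexp_quadratic' (b := (-(1 / 2) : ℂ)) (by norm_num) c 0, ?_⟩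
  rw [integral_cexp_quadratic (b := (-(1 / 2) : ℂ)) (by norm_num) c 0, norm_mul, Complex.norm_exp]
  congr 1
  · have h1 : ((Real.pi : ℂ) / -(-(1 / 2))) = ((2 * Real.pi : ℝ) : ℂ) := by
      push_cast
      field_simp
    rw [h1, Complex.norm_cpow_eq_rpow_re_of_pos (by positivity), Real.sqrt_eq_rpow]
    norm_num
  · congr 2
    ring

theorem PHB_cos (t : ℝ) (z : ℂ) (u : ℝ) : ((Real.cos (t * u) * Real.exp (-u ^ 2 / 2) : ℝ) : ℂ) * Complex.exp (z * u) =
    (1 / 2 : ℂ) * (Complex.exp (-(1 / 2) * (u : ℂ) ^ 2 + (z + t * I) * u + 0) +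
      Complex.exp (-(1 / 2) * (u : ℂ) ^ 2 + (z - t * I) * u + 0)) := by
  have h1 : Complex.exp (-(1 / 2) * (u : ℂ) ^ 2 + (z + t * I) * u + 0) =
      Complex.exp (((t * u : ℝ) : ℂ) * I) * (Complex.exp ((-u ^ 2 / 2 : ℝ) : ℂ) * Complex.exp (z * u)) := by
    rw [← Complex.exp_add, ← Complex.exp_add]
    congr 1
    push_cast
    ring
  have h2 : Complex.exp (-(1 / 2) * (u : ℂ) ^ 2 + (z - t * I) * u + 0) =
      Complex.exp (-((t * u : ℝ) : ℂ) * I) * (Complex.exp ((-u ^ 2 / 2 : ℝ) : ℂ) * Complex.exp (z * u)) := by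
    rw [← Complex.exp_add, ← Complex.exp_add]
    congr 1
    push_cast
    ring
  rw [h1, h2, Complex.ofReal_mul, Complex.ofReal_cos, Complex.ofReal_exp, Complex.cos]
  ring

theorem PHB_R (t : ℝ) {z : ℂ} (hz : |z.re| ≤ 1 / 2) :
    Integrable (fun u : ℝ => ((Real.cos (t * u) * Real.exp (-u ^ 2 / 2) : ℝ) : ℂ) * Complex.exp (z * u)) ∧
    ‖∫ u : ℝ, ((Real.cos (t * u) * Real.exp (-u ^ 2 / 2) : ℝ) : ℂ) * Complex.exp (z * u)‖ ≤
      √(2 * Real.pi) * Real.exp (1 / 8) * (Real.exp (-(-z.im - t) ^ 2 / 2) + Real.exp (-(-z.im + t) ^ 2 / 2)) := by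
  obtain ⟨i1, n1⟩ := PHB_gauss (z + t * I)
  obtain ⟨i2, n2⟩ := PHB_gauss (z - t * I)
  simp only [PHB_cos]
  refine ⟨(i1.add i2).const_mul _, ?_⟩
  rw [integral_const_mul, integral_add i1 i2, norm_mul]
  have hr : z.re ^ 2 ≤ 1 / 4 := by
    have := abs_le.1 hz
    nlinarith
  have e1 : ((z + t * I) ^ 2 / 2).re ≤ 1 / 8 + -(-z.im - t) ^ 2 / 2 := by
    have : ((z + t * I) ^ 2 / 2).re = (z.re ^ 2 - (z.im + t) ^ 2) / 2 := by
      have h3 : (z + t * I) ^ 2 / 2 = (((1 / 2 : ℝ) : ℂ)) * ((z + t * I) * (z + t * I)) := by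
        push_cast
        ring
      rw [h3, Complex.re_ofReal_mul]
      simp only [Complex.mul_re, Complex.add_re, Complex.add_im, Complex.ofReal_re, Complex.ofReal_im, Complex.I_re,
        Complex.I_im, Complex.mul_im]
      ring
    rw [this]
    nlinarith
  have e2 : ((z - t * I) ^ 2 / 2).re ≤ 1 / 8 + -(-z.im + t) ^ 2 / 2 := by
    have : ((z - t * I) ^ 2 / 2).re = (z.re ^ 2 - (z.im - t) ^ 2) / 2 := by
      have h3 : (z - t * I) ^ 2 / 2 = (((1 / 2 : ℝ) : ℂ)) * ((z - t * I) * (z - t * I)) := by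
        push_cast
        ring
      rw [h3, Complex.re_ofReal_mul]
      simp only [Complex.mul_re, Complex.sub_re, Complex.sub_im, Complex.ofReal_re, Complex.ofReal_im, Complex.I_re,
        Complex.I_im, Complex.mul_im]
      ring
    rw [this]
    nlinarith
  have hs : 0 ≤ √(2 * Real.pi) := Real.sqrt_nonneg _
  have f1 : ‖∫ u : ℝ, Complex.exp (-(1 / 2) * (u : ℂ) ^ 2 + (z + t * I) * u + 0)‖ ≤
      √(2 * Real.pi) * (Real.exp (1 / 8) * Real.exp (-(-z.im - t) ^ 2 / 2)) := by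
    rw [n1, ← Real.exp_add]
    exact mul_le_mul_of_nonneg_left (Real.exp_le_exp.2 e1) hs
  have f2 : ‖∫ u : ℝ, Complex.exp (-(1 / 2) * (u : ℂ) ^ 2 + (z - t * I) * u + 0)‖ ≤
      √(2 * Real.pi) * (Real.exp (1 / 8) * Real.exp (-(-z.im + t) ^ 2 / 2)) := by
    rw [n2, ← Real.exp_add]
    exact mul_le_mul_of_nonneg_left (Real.exp_le_exp.2 e2) hs
  have hn : ‖(1 / 2 : ℂ)‖ = 1 / 2 := by norm_num
  rw [hn]
  have f3 := norm_add_le (∫ u : ℝ, Complex.exp (-(1 / 2) * (u : ℂ) ^ 2 + (z + t * I) * u + 0))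
    (∫ u : ℝ, Complex.exp (-(1 / 2) * (u : ℂ) ^ 2 + (z - t * I) * u + 0))
  have p0 : 0 ≤ √(2 * Real.pi) * (Real.exp (1 / 8) * Real.exp (-(-z.im - t) ^ 2 / 2)) := by positivity
  have p1 : 0 ≤ √(2 * Real.pi) * (Real.exp (1 / 8) * Real.exp (-(-z.im + t) ^ 2 / 2)) := by positivity
  calc _ ≤ 1 / 2 * (√(2 * Real.pi) * (Real.exp (1 / 8) * Real.exp (-(-z.im - t) ^ 2 / 2)) +
        √(2 * Real.pi) * (Real.exp (1 / 8) * Real.exp (-(-z.im + t) ^ 2 / 2))) :=
        mul_le_mul_of_nonneg_left (by linarith) (by norm_num)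
    _ ≤ √(2 * Real.pi) * (Real.exp (1 / 8) * Real.exp (-(-z.im - t) ^ 2 / 2)) +
        √(2 * Real.pi) * (Real.exp (1 / 8) * Real.exp (-(-z.im + t) ^ 2 / 2)) := by linarith
    _ = _ := by ring

theorem PHB (hGGS : GGS_stmt) (bKC : Pool.Agent.BA.KC_stmt) (bKD : Pool.Agent.BA.KD_stmt)
    (bGI : Pool.Agent.BA.GI_stmt) : PHB_stmt := by
  intro n μ hμ
  have hdom : ∀ (t σ C : ℝ), (∀ x : ℝ, 0 < x → |kf μ 0 x| ≤ C * x ^ (-σ)) → ∀ x u : ℝ, 0 < x →
      ‖Real.cos (t * u) * Real.exp (-u ^ 2 / 2) * (Real.exp (u / 2) * kf μ 0 (x * Real.exp u))‖ ≤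
        C * x ^ (-σ) * Real.exp ((1 / 2 - σ) * u - u ^ 2 / 2) := by
    intro t σ C hC x u hx
    have h1 := VD_bd hC hx u
    have h2 := Real.abs_cos_le_one (t * u)
    have h3 : 0 ≤ C * x ^ (-σ) := (abs_nonneg _).trans (hC x hx)
    rw [Real.norm_eq_abs, abs_mul, abs_mul, abs_of_pos (Real.exp_pos (-u ^ 2 / 2))]
    calc |Real.cos (t * u)| * Real.exp (-u ^ 2 / 2) * |Real.exp (u / 2) * kf μ 0 (x * Real.exp u)| ≤
          1 * Real.exp (-u ^ 2 / 2) * (C * x ^ (-σ) * Real.exp (-(σ - 1 / 2) * u)) :=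
          mul_le_mul (mul_le_mul_of_nonneg_right h2 (Real.exp_pos _).le) h1 (abs_nonneg _) (by positivity)
      _ = C * x ^ (-σ) * (Real.exp (-u ^ 2 / 2) * Real.exp (-(σ - 1 / 2) * u)) := by ring
      _ = _ := by
        rw [← Real.exp_add]
        congr 2
        ring
  have hcu : ∀ t x : ℝ, 0 < x → Continuous fun u : ℝ => Real.cos (t * u) * Real.exp (-u ^ 2 / 2) *
      (Real.exp (u / 2) * kf μ 0 (x * Real.exp u)) := fun t x hx =>
    (by fun_prop : Continuous fun u : ℝ => Real.cos (t * u) * Real.exp (-u ^ 2 / 2)).mul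
      (Pool.Agent.BA.VD_cont bKD 0 hμ hx)
  refine ⟨fun t => ⟨?_, fun σ hσ => ?_⟩, fun η hη hη2 => ?_⟩
  · intro x₀ hx₀
    have hx0 : 0 < x₀ := hx₀
    refine ContinuousAt.continuousWithinAt ?_
    obtain ⟨C, hC0, hC⟩ := bKC n 0 μ 1 hμ one_pos
    show ContinuousAt (fun x : ℝ => 4 / √(2 * Real.pi) * ∫ u : ℝ, Real.cos (t * u) * Real.exp (-u ^ 2 / 2) *
      (Real.exp (u / 2) * kf μ 0 (x * Real.exp u))) x₀
    refine continuousAt_const.mul ?_
    refine continuousAt_of_dominated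
      (bound := fun u => C * (x₀ / 2) ^ (-(1 : ℝ)) * Real.exp ((1 / 2 - 1) * u - u ^ 2 / 2)) ?_ ?_ ?_ ?_
    · filter_upwards [Ioi_mem_nhds hx0] with x hx
      exact (hcu t x hx).aestronglyMeasurable
    · filter_upwards [Ioi_mem_nhds (show x₀ / 2 < x₀ by linarith)] with x hx
      refine Filter.Eventually.of_forall fun u => ?_
      have hx1 : x₀ / 2 < x := hx
      refine (hdom t 1 C hC x u (by linarith)).trans ?_
      have h1 : x ^ (-(1 : ℝ)) ≤ (x₀ / 2) ^ (-(1 : ℝ)) :=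
        Real.rpow_le_rpow_of_nonpos (by linarith) hx1.le (by norm_num)
      exact mul_le_mul_of_nonneg_right (mul_le_mul_of_nonneg_left h1 hC0.le) (Real.exp_pos _).le
    · exact (PHB_q _).const_mul _
    · refine Filter.Eventually.of_forall fun u => ?_
      refine continuousAt_const.mul (continuousAt_const.mul ?_)
      exact ContinuousAt.comp (g := kf μ 0) (f := fun x : ℝ => x * Real.exp u)
        (bKD n 0 μ hμ _ (mul_pos hx0 (Real.exp_pos u))).1.continuousAt (by fun_prop)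
  · obtain ⟨C, hC0, hC⟩ := bKC n 0 μ σ hμ hσ
    refine ⟨4 / √(2 * Real.pi) * (C * ∫ u : ℝ, Real.exp ((1 / 2 - σ) * u - u ^ 2 / 2)), fun x hx => ?_⟩
    have h1 := norm_integral_le_of_norm_le ((PHB_q (1 / 2 - σ)).const_mul (C * x ^ (-σ)))
      (Filter.Eventually.of_forall fun u => hdom t σ C hC x u hx)
    rw [integral_const_mul, Real.norm_eq_abs] at h1
    unfold ph
    rw [abs_mul, abs_of_nonneg (by positivity : 0 ≤ 4 / √(2 * Real.pi))]
    calc _ ≤ 4 / √(2 * Real.pi) * (C * x ^ (-σ) * ∫ u : ℝ, Real.exp ((1 / 2 - σ) * u - u ^ 2 / 2)) :=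
          mul_le_mul_of_nonneg_left h1 (by positivity)
      _ = _ := by ring
  · obtain ⟨C1, hC1, hG1⟩ := hGGS n μ η hμ hη
    obtain ⟨C2, hC2, hG2⟩ := hGGS n μ (1 / 2) hμ (by norm_num)
    set A : ℝ := (n * (η - 1) + ∑ j, μ j) / 2 with hA
    set c : ℝ := Real.pi / 4 * n with hc
    have hc0 : 0 ≤ c := by rw [hc]; positivity
    set b : ℝ := |A| + c with hb
    set J : ℝ := ∫ v : ℝ, Real.exp (b * |v| - v ^ 2 / 2) with hJ
    have hJ0 : 0 ≤ J := integral_nonneg fun v => (Real.exp_pos _).le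
    set K : ℝ := √(2 * Real.pi) * Real.exp (1 / 8) with hK
    have hK0 : 0 < K := by rw [hK]; positivity
    refine ⟨4 / √(2 * Real.pi) * (C1 * K * (2 * J) / (2 * Real.pi)) * C2 + 1, by positivity, fun t x ht hx => ?_⟩
    have hxη : 0 < x ^ (-η) := Real.rpow_pos_of_pos hx _
    have hxc : (x : ℂ) ≠ 0 := by exact_mod_cast hx.ne'
    -- the function g
    have hGi : Integrable (fun τ : ℝ => GG μ ((η : ℂ) + τ * I)) := by
      have h := bGI n 0 μ η hμ hη
      simpa using h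
    set g : ℝ → ℂ := fun τ => GG μ ((η : ℂ) + τ * I) * (x : ℂ) ^ (-((η : ℂ) + τ * I)) with hg
    have hgn : ∀ τ : ℝ, ‖g τ‖ = ‖GG μ ((η : ℂ) + τ * I)‖ * x ^ (-η) := by
      intro τ
      simp only [hg]
      rw [norm_mul, Complex.norm_cpow_eq_rpow_re_of_pos hx]
      congr 2
      simp
    have hgi : Integrable g := by
      refine (hGi.norm.mul_const (x ^ (-η))).mono' ?_ (Filter.Eventually.of_forall fun τ => (hgn τ).le)
      refine hGi.aestronglyMeasurable.mul (Continuous.aestronglyMeasurable ?_)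
      exact Continuous.const_cpow (by fun_prop) (Or.inl hxc)
    set a : ℝ → ℂ := fun u => ((Real.cos (t * u) * Real.exp (-u ^ 2 / 2) : ℝ) : ℂ) with ha
    have hac : Continuous a := by
      simp only [ha]
      fun_prop
    have han : ∀ u : ℝ, ‖a u‖ ≤ Real.exp (-u ^ 2 / 2) := by
      intro u
      simp only [ha]
      rw [Complex.norm_real, Real.norm_eq_abs, abs_mul, abs_of_pos (Real.exp_pos _)]
      have := mul_le_mul_of_nonneg_right (Real.abs_cos_le_one (t * u)) (Real.exp_pos (-u ^ 2 / 2)).le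
      linarith
    have hFi : Integrable (Function.uncurry fun u τ : ℝ => g τ * (a u * Complex.exp (((1 / 2 : ℂ) - ((η : ℂ) + τ * I)) * u)))
        ((volume : Measure ℝ).prod (volume : Measure ℝ)) := by
      have hb1 : Integrable (fun z : ℝ × ℝ => Real.exp ((1 / 2 - η) * z.1 - z.1 ^ 2 / 2) * ‖g z.2‖)
          ((volume : Measure ℝ).prod (volume : Measure ℝ)) := (PHB_q (1 / 2 - η)).mul_prod hgi.norm
      refine hb1.mono' ?_ (Filter.Eventually.of_forall fun z => ?_)
      · refine (hgi.aestronglyMeasurable.comp_snd).mul (Continuous.aestronglyMeasurable ?_)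
        exact (hac.comp continuous_fst).mul (by fun_prop)
      · show ‖g z.2 * (a z.1 * Complex.exp (((1 / 2 : ℂ) - ((η : ℂ) + z.2 * I)) * z.1))‖ ≤ _
        rw [norm_mul (g z.2), norm_mul (a z.1), Complex.norm_exp]
        have h1 : ((((1 / 2 : ℂ) - ((η : ℂ) + z.2 * I)) * z.1)).re = (1 / 2 - η) * z.1 := by
          simp
        rw [h1]
        calc ‖g z.2‖ * (‖a z.1‖ * Real.exp ((1 / 2 - η) * z.1)) ≤
              ‖g z.2‖ * (Real.exp (-z.1 ^ 2 / 2) * Real.exp ((1 / 2 - η) * z.1)) :=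
              mul_le_mul_of_nonneg_left (mul_le_mul_of_nonneg_right (han _) (Real.exp_pos _).le) (norm_nonneg _)
          _ = Real.exp ((1 / 2 - η) * z.1 - z.1 ^ 2 / 2) * ‖g z.2‖ := by
              rw [← Real.exp_add, mul_comm]
              congr 2
              ring
    have hswap := integral_integral_swap hFi
    have hleft : ∀ u : ℝ, (∫ τ : ℝ, g τ * (a u * Complex.exp (((1 / 2 : ℂ) - ((η : ℂ) + τ * I)) * u))) =
        ((2 * Real.pi * (Real.cos (t * u) * Real.exp (-u ^ 2 / 2) * (Real.exp (u / 2) * kf μ 0 (x * Real.exp u))) : ℝ) : ℂ) := by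
      intro u
      have hE := Real.exp_pos u
      have h1 := (bKD n 0 μ hμ (x * Real.exp u) (mul_pos hx hE)).2 η hη
      unfold kl at h1
      have h2 : ∀ τ : ℝ, g τ * (a u * Complex.exp (((1 / 2 : ℂ) - ((η : ℂ) + τ * I)) * u)) =
          (a u * Complex.exp ((u / 2 : ℝ) : ℂ)) * ((-((η : ℂ) + τ * I)) ^ 0 * GG μ ((η : ℂ) + τ * I) *
            (((x * Real.exp u : ℝ) : ℂ)) ^ (-((η : ℂ) + τ * I))) := by
        intro τ
        simp only [hg]
        rw [Complex.ofReal_mul, Complex.mul_cpow_ofReal_nonneg hx.le hE.le, pow_zero, one_mul,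
          Complex.cpow_def_of_ne_zero (x := ((Real.exp u : ℝ) : ℂ)) (by exact_mod_cast hE.ne'),
          ← Complex.ofReal_log hE.le, Real.log_exp]
        have h3 : Complex.exp (((1 / 2 : ℂ) - ((η : ℂ) + τ * I)) * u) =
            Complex.exp ((u / 2 : ℝ) : ℂ) * Complex.exp ((u : ℂ) * -((η : ℂ) + τ * I)) := by
          rw [← Complex.exp_add]
          congr 1
          push_cast
          ring
        rw [h3]
        ring
      simp only [h2]
      rw [integral_const_mul]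
      have h4 : (∫ τ : ℝ, (-((η : ℂ) + τ * I)) ^ 0 * GG μ ((η : ℂ) + τ * I) *
            (((x * Real.exp u : ℝ) : ℂ)) ^ (-((η : ℂ) + τ * I))) = ((2 * Real.pi : ℝ) : ℂ) * (kf μ 0 (x * Real.exp u) : ℂ) := by
        rw [h1, ← mul_assoc, ← Complex.ofReal_mul]
        have h5 : 2 * Real.pi * (1 / (2 * Real.pi)) = 1 := by field_simp
        rw [h5, Complex.ofReal_one, one_mul]
      rw [h4]
      simp only [ha]
      rw [← Complex.ofReal_exp]
      push_cast
      ring
    simp only [hleft] at hswap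
    rw [integral_complex_ofReal, integral_const_mul] at hswap
    set S : ℝ := ∫ u : ℝ, Real.cos (t * u) * Real.exp (-u ^ 2 / 2) * (Real.exp (u / 2) * kf μ 0 (x * Real.exp u)) with hS
    have hright : ‖∫ τ : ℝ, ∫ u : ℝ, g τ * (a u * Complex.exp (((1 / 2 : ℂ) - ((η : ℂ) + τ * I)) * u))‖ ≤
        C1 * K * x ^ (-η) * ((1 + t) ^ A * Real.exp (-(c * t))) * (2 * J) := by
      have hE1 : Integrable (fun τ : ℝ => Real.exp (b * |τ - t| - (τ - t) ^ 2 / 2)) := (PHB_g b).comp_sub_right t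
      have hE2 : Integrable (fun τ : ℝ => Real.exp (b * |τ + t| - (τ + t) ^ 2 / 2)) := (PHB_g b).comp_add_right t
      have h1 := norm_integral_le_of_norm_le (f := fun τ : ℝ => ∫ u : ℝ, g τ * (a u *
          Complex.exp (((1 / 2 : ℂ) - ((η : ℂ) + τ * I)) * u)))
        ((hE1.add hE2).const_mul (C1 * K * x ^ (-η) * ((1 + t) ^ A * Real.exp (-(c * t)))))
        (Filter.Eventually.of_forall fun τ => ?_)
      · refine h1.trans (le_of_eq ?_)
        rw [integral_const_mul]
        congr 1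
        simp only [Pi.add_apply]
        rw [integral_add hE1 hE2, integral_sub_right_eq_self (fun v : ℝ => Real.exp (b * |v| - v ^ 2 / 2)) t,
          integral_add_right_eq_self (fun v : ℝ => Real.exp (b * |v| - v ^ 2 / 2)) t]
        ring
      · rw [integral_const_mul, norm_mul, hgn]
        have hz : |(((1 / 2 : ℂ) - ((η : ℂ) + τ * I))).re| ≤ 1 / 2 := by
          have : (((1 / 2 : ℂ) - ((η : ℂ) + τ * I))).re = 1 / 2 - η := by simp
          rw [this, abs_le]
          constructor <;> linarith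
        have him : (((1 / 2 : ℂ) - ((η : ℂ) + τ * I))).im = -τ := by simp
        have h2 := (PHB_R t hz).2
        rw [him, neg_neg] at h2
        have h3 := (hG1 τ).2
        have p1 := PHB_peetre (A := A) (c := c) (t := t) (τ := τ) (v := τ - t) ht hc0
          (by
            have := abs_add_le (τ - t) t
            rw [sub_add_cancel, abs_of_nonneg ht] at this
            linarith)
          (by
            have := abs_sub τ (τ - t)
            rw [show τ - (τ - t) = t by ring, abs_of_nonneg ht] at this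
            linarith)
        have p2 := PHB_peetre (A := A) (c := c) (t := t) (τ := τ) (v := τ + t) ht hc0
          (by
            have := abs_sub (τ + t) t
            rw [show τ + t - t = τ by ring, abs_of_nonneg ht] at this
            linarith)
          (by
            have := abs_sub (τ + t) τ
            rw [show τ + t - τ = t by ring, abs_of_nonneg ht] at this
            linarith)
        rw [← hb] at p1 p2
        set W : ℝ := (1 + |τ|) ^ A * Real.exp (-(c * |τ|)) with hW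
        set T : ℝ := (1 + t) ^ A * Real.exp (-(c * t)) with hT
        have hT0 : 0 ≤ T := by rw [hT]; positivity
        have hW0 : 0 ≤ W := by rw [hW]; positivity
        have e1 : Real.exp (b * |τ - t| - (τ - t) ^ 2 / 2) = Real.exp (b * |τ - t|) * Real.exp (-(τ - t) ^ 2 / 2) := by
          rw [← Real.exp_add]
          congr 1
          ring
        have e2 : Real.exp (b * |τ + t| - (τ + t) ^ 2 / 2) = Real.exp (b * |τ + t|) * Real.exp (-(τ + t) ^ 2 / 2) := by
          rw [← Real.exp_add]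
          congr 1
          ring
        have q1 := mul_le_mul_of_nonneg_right p1 (Real.exp_pos (-(τ - t) ^ 2 / 2)).le
        have q2 := mul_le_mul_of_nonneg_right p2 (Real.exp_pos (-(τ + t) ^ 2 / 2)).le
        have q3 : W * (Real.exp (-(τ - t) ^ 2 / 2) + Real.exp (-(τ + t) ^ 2 / 2)) ≤
            T * (Real.exp (b * |τ - t| - (τ - t) ^ 2 / 2) + Real.exp (b * |τ + t| - (τ + t) ^ 2 / 2)) := by
          rw [e1, e2]
          linarith
        have hC10 : 0 < C1 := by linarith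
        calc _ ≤ (C1 * W) * x ^ (-η) * (K * (Real.exp (-(τ - t) ^ 2 / 2) + Real.exp (-(τ + t) ^ 2 / 2))) := by
              refine mul_le_mul (mul_le_mul_of_nonneg_right h3 hxη.le) h2 (norm_nonneg _) (by positivity)
          _ = C1 * K * x ^ (-η) * (W * (Real.exp (-(τ - t) ^ 2 / 2) + Real.exp (-(τ + t) ^ 2 / 2))) := by ring
          _ ≤ C1 * K * x ^ (-η) * (T * (Real.exp (b * |τ - t| - (τ - t) ^ 2 / 2) +
              Real.exp (b * |τ + t| - (τ + t) ^ 2 / 2))) := mul_le_mul_of_nonneg_left q3 (by positivity)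
          _ = _ := by
            simp only [Pi.add_apply]
            ring
    rw [← hswap, Complex.norm_real, Real.norm_eq_abs, abs_mul, abs_of_pos (by positivity : 0 < 2 * Real.pi)] at hright
    have hgh : (1 + t) ^ A * Real.exp (-(c * t)) ≤ (1 + t) ^ (-(n * (1 / 2 - η) / 2) : ℝ) * (C2 * gh μ t) := by
      have h1 := (hG2 t).1
      rw [abs_of_nonneg ht] at h1
      have h2 : ‖GG μ (((1 / 2 : ℝ) : ℂ) + t * I)‖ = gh μ t := by
        unfold gh
        congr 3
        push_cast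
        rfl
      rw [h2] at h1
      have hC20 : 0 < C2 := by linarith
      have h3 : (1 + t) ^ ((n * (1 / 2 - 1) + ∑ j, μ j) / 2) * Real.exp (-(Real.pi / 4 * n * t)) ≤ C2 * gh μ t := by
        have := mul_le_mul_of_nonneg_left h1 hC20.le
        rwa [mul_inv_cancel_left₀ hC20.ne'] at this
      have h4 : (1 + t) ^ A = (1 + t) ^ (-(n * (1 / 2 - η) / 2) : ℝ) * (1 + t) ^ ((n * (1 / 2 - 1) + ∑ j, μ j) / 2) := by
        rw [← Real.rpow_add (by linarith)]
        congr 1
        rw [hA]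
        ring
      rw [h4, mul_assoc]
      exact mul_le_mul_of_nonneg_left h3 (by positivity)
    have hgh0 : 0 ≤ gh μ t := norm_nonneg _
    have hpi : (0 : ℝ) < 2 * Real.pi := by positivity
    have hC10 : 0 < C1 := by linarith
    have hC20 : 0 < C2 := by linarith
    have hSb : |S| ≤ C1 * K * x ^ (-η) * ((1 + t) ^ (-(n * (1 / 2 - η) / 2) : ℝ) * (C2 * gh μ t)) * (2 * J) / (2 * Real.pi) := by
      rw [le_div_iff₀ hpi, mul_comm]
      refine hright.trans ?_
      exact mul_le_mul_of_nonneg_right (mul_le_mul_of_nonneg_left hgh (by positivity)) (by positivity)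
    have hph : |ph μ t x| = 4 / √(2 * Real.pi) * |S| := by
      unfold ph
      rw [abs_mul, abs_of_nonneg (by positivity : 0 ≤ 4 / √(2 * Real.pi))]
    rw [hph]
    have hP : 0 ≤ (1 + t) ^ (-(n * (1 / 2 - η) / 2) : ℝ) * gh μ t * x ^ (-η) := by positivity
    calc 4 / √(2 * Real.pi) * |S| ≤ 4 / √(2 * Real.pi) * (C1 * K * x ^ (-η) *
          ((1 + t) ^ (-(n * (1 / 2 - η) / 2) : ℝ) * (C2 * gh μ t)) * (2 * J) / (2 * Real.pi)) :=
          mul_le_mul_of_nonneg_left hSb (by positivity)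
      _ = (4 / √(2 * Real.pi) * (C1 * K * (2 * J) / (2 * Real.pi)) * C2) *
          ((1 + t) ^ (-(n * (1 / 2 - η) / 2) : ℝ) * gh μ t * x ^ (-η)) := by ring
      _ ≤ (4 / √(2 * Real.pi) * (C1 * K * (2 * J) / (2 * Real.pi)) * C2 + 1) *
          ((1 + t) ^ (-(n * (1 / 2 - η) / 2) : ℝ) * gh μ t * x ^ (-η)) :=
          mul_le_mul_of_nonneg_right (by linarith) hP
      _ = _ := by ring

end Pool.Agent.TA
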