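import Pool.Agent.helper38.TA.SpecK
import Pool.Agent.helper46.BA.OR

/-! # ta:PKA: the autocorrelation of `k` -/

set_option autoImplicit false

open Complex MeasureTheory Set

namespace Pool.Agent.TA

open Pool.Agent.BA (Par GG kl kf vf fV Bw Den PP wt lam gpf rgz OR_int)

theorem PKA_gamma (s : ℂ) : Complex.Gammaℝ ((starRingEnd ℂ) s) = (starRingEnd ℂ) (Complex.Gammaℝ s) := by
  have hpi : ∀ z : ℂ, (Real.pi : ℂ) ^ ((starRingEnd ℂ) z) = (starRingEnd ℂ) ((Real.pi : ℂ) ^ z) := by
    intro z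
    rw [Complex.cpow_conj _ _ (by rw [Complex.arg_ofReal_of_nonneg Real.pi_pos.le]; exact Real.pi_pos.ne),
      Complex.conj_ofReal]
  rw [Complex.Gammaℝ_def, Complex.Gammaℝ_def, map_mul]
  have h1 : -((starRingEnd ℂ) s) / 2 = (starRingEnd ℂ) (-s / 2) := by
    rw [map_div₀, map_neg, Complex.conj_ofNat]
  have h2 : ((starRingEnd ℂ) s) / 2 = (starRingEnd ℂ) (s / 2) := by
    rw [map_div₀, Complex.conj_ofNat]
  rw [h1, h2, hpi, Complex.Gamma_conj]

theorem PKA_GG {n : ℕ} (μ : Fin n → ℝ) (s : ℂ) : GG μ ((starRingEnd ℂ) s) = (starRingEnd ℂ) (GG μ s) := by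
  unfold GG
  rw [map_prod]
  refine Finset.prod_congr rfl fun i _ => ?_
  rw [← PKA_gamma, map_add, Complex.conj_ofReal]

/-- the substitution `z = x e^u` -/
theorem PKA_sub (f : ℝ → ℂ) (s : ℂ) {x : ℝ} (hx : 0 < x) (hf : MellinConvergent f s) :
    Integrable (fun u : ℝ => Complex.exp (s * u) * f (x * Real.exp u)) ∧
    ∫ u : ℝ, Complex.exp (s * u) * f (x * Real.exp u) = (x : ℂ) ^ (-s) * mellin f s := by
  have himg : (fun u : ℝ => x * Real.exp u) '' univ = Ioi 0 := by
    ext z
    constructor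
    · rintro ⟨u, -, rfl⟩
      exact mul_pos hx (Real.exp_pos u)
    · intro hz
      have hz' : 0 < z := hz
      refine ⟨Real.log (z / x), mem_univ _, ?_⟩
      show x * Real.exp (Real.log (z / x)) = z
      rw [Real.exp_log (div_pos hz' hx)]
      field_simp
  have hinj : InjOn (fun u : ℝ => x * Real.exp u) univ := by
    intro a _ b _ h
    exact Real.exp_injective (mul_left_cancel₀ hx.ne' h)
  have hder : ∀ u ∈ (univ : Set ℝ), HasDerivWithinAt (fun u : ℝ => x * Real.exp u) (x * Real.exp u) univ u :=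
    fun u _ => ((Real.hasDerivAt_exp u).const_mul x).hasDerivWithinAt
  have hxc : (x : ℂ) ≠ 0 := by exact_mod_cast hx.ne'
  have hfun : ∀ u : ℝ, |x * Real.exp u| • ((((x * Real.exp u : ℝ) : ℂ)) ^ (s - 1) • f (x * Real.exp u)) =
      (x : ℂ) ^ s * (Complex.exp (s * u) * f (x * Real.exp u)) := by
    intro u
    have hE := Real.exp_pos u
    rw [abs_of_pos (mul_pos hx hE), Complex.real_smul, smul_eq_mul, ← mul_assoc, ← mul_assoc]
    congr 1
    have h1 : (((x * Real.exp u : ℝ) : ℂ)) ≠ 0 := by exact_mod_cast (mul_pos hx hE).ne'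
    rw [Complex.cpow_sub _ _ h1, Complex.cpow_one, mul_div_cancel₀ _ h1, Complex.ofReal_mul,
      Complex.mul_cpow_ofReal_nonneg hx.le hE.le]
    congr 1
    rw [Complex.cpow_def_of_ne_zero (by exact_mod_cast hE.ne'), ← Complex.ofReal_log hE.le, Real.log_exp]
    congr 1
    ring
  have h1 := integrableOn_image_iff_integrableOn_abs_deriv_smul MeasurableSet.univ hder hinj
    (fun z : ℝ => (z : ℂ) ^ (s - 1) • f z)
  rw [himg, integrableOn_univ] at h1
  have h2 := integral_image_eq_integral_abs_deriv_smul MeasurableSet.univ hder hinj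
    (fun z : ℝ => (z : ℂ) ^ (s - 1) • f z)
  rw [himg, setIntegral_univ] at h2
  have hxs : (x : ℂ) ^ s ≠ 0 := by
    rw [Ne, Complex.cpow_eq_zero_iff]
    exact fun h => hxc h.1
  have h3 := h1.1 hf
  simp only [hfun] at h3 h2
  constructor
  · have h4 := h3.const_mul ((x : ℂ) ^ s)⁻¹
    refine h4.congr (Filter.Eventually.of_forall fun u => ?_)
    show ((x : ℂ) ^ s)⁻¹ * ((x : ℂ) ^ s * (Complex.exp (s * u) * f (x * Real.exp u))) = _
    rw [inv_mul_cancel_left₀ hxs]
  · rw [integral_const_mul] at h2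
    have h5 : mellin f s = (x : ℂ) ^ s * ∫ u : ℝ, Complex.exp (s * u) * f (x * Real.exp u) := h2
    rw [h5, Complex.cpow_neg, inv_mul_cancel_left₀ hxs]

theorem PKA (bKB : Pool.Agent.BA.KB_stmt) (bKC : Pool.Agent.BA.KC_stmt) (bKD : Pool.Agent.BA.KD_stmt) : PKA_stmt := by
  intro n μ hμ
  have hkpos := (bKB n μ hμ).1
  have hkat : ∀ x : ℝ, 0 < x → ContinuousAt (kf μ 0) x := fun x hx => (bKD n 0 μ hμ x hx).1.continuousAt
  have hkcont : ContinuousOn (kf μ 0) (Ioi 0) := fun x hx => (hkat x hx).continuousWithinAt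
  obtain ⟨C, hC0, hC⟩ := bKC n 0 μ (3 / 4) hμ (by norm_num)
  have hI : IntegrableOn (fun y : ℝ => |kf μ 0 y| * y ^ (-(3 / 4) : ℝ)) (Ioi 0) := by
    obtain ⟨A1, -, hA1⟩ := bKC n 0 μ (1 / 8) hμ (by norm_num)
    obtain ⟨A2, -, hA2⟩ := bKC n 0 μ 1 hμ one_pos
    have key : ∀ (A σ : ℝ), (∀ x : ℝ, 0 < x → |kf μ 0 x| ≤ A * x ^ (-σ)) → ∀ x : ℝ, 0 < x →
        |(|kf μ 0 x| * x ^ (-(3 / 4) : ℝ))| ≤ A * x ^ (-(σ + 3 / 4)) := by
      intro A σ hA x hx
      have hp : 0 < x ^ (-(3 / 4) : ℝ) := Real.rpow_pos_of_pos hx _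
      rw [abs_mul, abs_abs, abs_of_pos hp, neg_add, Real.rpow_add hx, ← mul_assoc]
      exact mul_le_mul_of_nonneg_right (hA x hx) hp.le
    refine OR_int (a := 1 / 8 + 3 / 4) (b := 1 + 3 / 4) (C1 := A1) (C2 := A2) ?_ (by norm_num) (by norm_num)
      (key A1 _ hA1) (key A2 _ hA2)
    refine hkcont.abs.mul ?_
    intro x hx
    exact (Real.continuousAt_rpow_const x _ (Or.inl (ne_of_gt hx))).continuousWithinAt
  have hpt : ∀ a y : ℝ, 0 < y → |kf μ 0 y * kf μ 0 (y * Real.exp a)| ≤
      C * Real.exp (-(3 / 4) * a) * (|kf μ 0 y| * y ^ (-(3 / 4) : ℝ)) := by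
    intro a y hy
    have h1 := hC (y * Real.exp a) (mul_pos hy (Real.exp_pos a))
    rw [Real.mul_rpow hy.le (Real.exp_pos a).le, ← Real.exp_mul, mul_comm a] at h1
    rw [abs_mul]
    calc |kf μ 0 y| * |kf μ 0 (y * Real.exp a)| ≤ |kf μ 0 y| *
          (C * (y ^ (-(3 / 4) : ℝ) * Real.exp (-(3 / 4) * a))) := mul_le_mul_of_nonneg_left h1 (abs_nonneg _)
      _ = _ := by ring
  have hmeas : ∀ a : ℝ, ContinuousOn (fun y : ℝ => kf μ 0 y * kf μ 0 (y * Real.exp a)) (Ioi 0) := by
    intro a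
    refine hkcont.mul (hkcont.comp (by fun_prop) fun y hy => ?_)
    exact mul_pos hy (Real.exp_pos a)
  have hcont : Continuous (Kc μ) := by
    show Continuous fun a : ℝ => Real.exp (a / 2) * ∫ y in Ioi (0 : ℝ), kf μ 0 y * kf μ 0 (y * Real.exp a)
    refine (by fun_prop : Continuous fun a : ℝ => Real.exp (a / 2)).mul ?_
    refine continuous_iff_continuousAt.2 fun a₀ => ?_
    refine continuousAt_of_dominated
      (bound := fun y => C * Real.exp (-(3 / 4) * (a₀ - 1)) * (|kf μ 0 y| * y ^ (-(3 / 4) : ℝ))) ?_ ?_ ?_ ?_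
    · exact Filter.Eventually.of_forall fun a => (hmeas a).aestronglyMeasurable measurableSet_Ioi
    · filter_upwards [Ioi_mem_nhds (show a₀ - 1 < a₀ by linarith)] with a ha
      refine (ae_restrict_iff' measurableSet_Ioi).2 (Filter.Eventually.of_forall fun y hy => ?_)
      rw [Real.norm_eq_abs]
      refine (hpt a y hy).trans ?_
      have h1 : Real.exp (-(3 / 4) * a) ≤ Real.exp (-(3 / 4) * (a₀ - 1)) := by
        refine Real.exp_le_exp.2 ?_
        have : a₀ - 1 < a := ha
        linarith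
      have h2 : 0 ≤ |kf μ 0 y| * y ^ (-(3 / 4) : ℝ) :=
        mul_nonneg (abs_nonneg _) (Real.rpow_pos_of_pos hy _).le
      exact mul_le_mul_of_nonneg_right (mul_le_mul_of_nonneg_left h1 hC0.le) h2
    · exact hI.const_mul _
    · refine (ae_restrict_iff' measurableSet_Ioi).2 (Filter.Eventually.of_forall fun y hy => ?_)
      refine continuousAt_const.mul ?_
      exact ContinuousAt.comp (g := kf μ 0) (f := fun a : ℝ => y * Real.exp a)
        (hkat _ (mul_pos hy (Real.exp_pos _))) (by fun_prop)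
  have heven : ∀ a : ℝ, Kc μ (-a) = Kc μ a := by
    intro a
    have h1 := integral_comp_mul_right_Ioi (fun y => kf μ 0 (y * Real.exp (-a)) * kf μ 0 y) 0
      (Real.exp_pos a)
    rw [zero_mul, smul_eq_mul, ← Real.exp_neg] at h1
    have h3 : ∫ x in Ioi (0 : ℝ), kf μ 0 x * kf μ 0 (x * Real.exp a) =
        Real.exp (-a) * ∫ x in Ioi (0 : ℝ), kf μ 0 (x * Real.exp (-a)) * kf μ 0 x := by
      rw [← h1]
      refine integral_congr_ae (Filter.Eventually.of_forall fun x => ?_)
      have h2 : x * Real.exp a * Real.exp (-a) = x := by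
        rw [mul_assoc, ← Real.exp_add, add_neg_cancel, Real.exp_zero, mul_one]
      simp only
      rw [h2]
    unfold Kc
    rw [h3, ← mul_assoc, ← Real.exp_add]
    have h4 : a / 2 + -a = -a / 2 := by ring
    rw [h4]
    congr 1
    refine integral_congr_ae (Filter.Eventually.of_forall fun x => ?_)
    simp only
    ring
  refine ⟨hcont, heven, ?_, fun t => ?_⟩
  · set J : ℝ := ∫ y in Ioi (0 : ℝ), |kf μ 0 y| * y ^ (-(3 / 4) : ℝ) with hJ
    refine ⟨C * J, ?_⟩
    have hpos : ∀ a : ℝ, 0 ≤ a → |Kc μ a| ≤ C * J * Real.exp (-|a| / 4) := by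
      intro a ha
      have h1 : ‖∫ y in Ioi (0 : ℝ), kf μ 0 y * kf μ 0 (y * Real.exp a)‖ ≤
          ∫ y in Ioi (0 : ℝ), C * Real.exp (-(3 / 4) * a) * (|kf μ 0 y| * y ^ (-(3 / 4) : ℝ)) := by
        refine norm_integral_le_of_norm_le (hI.const_mul _) ?_
        refine (ae_restrict_iff' measurableSet_Ioi).2 (Filter.Eventually.of_forall fun y hy => ?_)
        rw [Real.norm_eq_abs]
        exact hpt a y hy
      rw [integral_const_mul, ← hJ, Real.norm_eq_abs] at h1
      unfold Kc
      rw [abs_mul, abs_of_pos (Real.exp_pos _), abs_of_nonneg ha]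
      calc Real.exp (a / 2) * |∫ y in Ioi (0 : ℝ), kf μ 0 y * kf μ 0 (y * Real.exp a)| ≤
            Real.exp (a / 2) * (C * Real.exp (-(3 / 4) * a) * J) :=
            mul_le_mul_of_nonneg_left h1 (Real.exp_pos _).le
        _ = C * J * (Real.exp (a / 2) * Real.exp (-(3 / 4) * a)) := by ring
        _ = C * J * Real.exp (-a / 4) := by
            rw [← Real.exp_add]
            congr 2
            ring
    intro a
    rcases le_total 0 a with ha | ha
    · exact hpos a ha
    · rw [← heven a, ← abs_neg a]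
      exact hpos (-a) (by linarith)
  · set s : ℂ := (1 / 2 : ℂ) + t * I with hs
    have hsre : s.re = 1 / 2 := by
      rw [hs]
      simp
    have hconj : (starRingEnd ℂ) s = 1 - s := by
      rw [hs]
      apply Complex.ext
      · simp
        norm_num
      · simp
    have hmel : ∀ z : ℂ, 0 < z.re → MellinConvergent (fun x => (kf μ 0 x : ℂ)) z ∧
      mellin (fun x => (kf μ 0 x : ℂ)) z = GG μ z := (bKB n μ hμ).2.1
    have hin : ∀ (z : ℂ), 0 < z.re → ∀ y : ℝ, 0 < y →
        Integrable (fun a : ℝ => (kf μ 0 y : ℂ) * (Complex.exp (z * a) * (kf μ 0 (y * Real.exp a) : ℂ))) ∧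
        ∫ a : ℝ, (kf μ 0 y : ℂ) * (Complex.exp (z * a) * (kf μ 0 (y * Real.exp a) : ℂ)) =
          (kf μ 0 y : ℂ) * ((y : ℂ) ^ (-z) * GG μ z) := by
      intro z hz y hy
      obtain ⟨h1, h2⟩ := PKA_sub (fun x => (kf μ 0 x : ℂ)) z hy (hmel z hz).1
      refine ⟨h1.const_mul _, ?_⟩
      rw [integral_const_mul, h2, (hmel z hz).2]
    have hmf : AEStronglyMeasurable (Function.uncurry fun a y : ℝ => (kf μ 0 y : ℂ) *
        (Complex.exp (s * a) * (kf μ 0 (y * Real.exp a) : ℂ)))
        ((volume : Measure ℝ).prod (volume.restrict (Ioi (0 : ℝ)))) := by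
      have h0 : (volume : Measure ℝ).prod (volume.restrict (Ioi (0 : ℝ))) =
          ((volume : Measure ℝ).prod volume).restrict (univ ×ˢ Ioi (0 : ℝ)) := by
        rw [← Measure.prod_restrict, Measure.restrict_univ]
      rw [h0]
      refine ContinuousOn.aestronglyMeasurable ?_ (MeasurableSet.univ.prod measurableSet_Ioi)
      intro p hp
      have hp2 : 0 < p.2 := hp.2
      refine ContinuousAt.continuousWithinAt ?_
      have c1 : ContinuousAt (fun p : ℝ × ℝ => (kf μ 0 p.2 : ℂ)) p :=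
        Complex.continuous_ofReal.continuousAt.comp
          (ContinuousAt.comp (g := kf μ 0) (f := fun p : ℝ × ℝ => p.2) (hkat _ hp2) continuous_snd.continuousAt)
      have c2 : ContinuousAt (fun p : ℝ × ℝ => Complex.exp (s * p.1)) p := by fun_prop
      have c3 : ContinuousAt (fun p : ℝ × ℝ => (kf μ 0 (p.2 * Real.exp p.1) : ℂ)) p :=
        Complex.continuous_ofReal.continuousAt.comp
          (ContinuousAt.comp (g := kf μ 0) (f := fun p : ℝ × ℝ => p.2 * Real.exp p.1)
            (hkat _ (mul_pos hp2 (Real.exp_pos _))) (by fun_prop))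
      exact c1.mul (c2.mul c3)
    have hnorm : ∀ a y : ℝ, 0 < y → ‖(kf μ 0 y : ℂ) * (Complex.exp (s * a) * (kf μ 0 (y * Real.exp a) : ℂ))‖ =
        kf μ 0 y * (Real.exp (a / 2) * kf μ 0 (y * Real.exp a)) := by
      intro a y hy
      rw [norm_mul, norm_mul, Complex.norm_exp, Complex.norm_real, Complex.norm_real,
        Real.norm_of_nonneg (hkpos y hy).le, Real.norm_of_nonneg (hkpos _ (mul_pos hy (Real.exp_pos a))).le]
      congr 3
      simp [hsre]
      ring
    have hreal : ∀ y : ℝ, 0 < y → ∫ a : ℝ, kf μ 0 y * (Real.exp (a / 2) * kf μ 0 (y * Real.exp a)) =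
        kf μ 0 y * y ^ (-(1 / 2) : ℝ) * (GG μ (1 / 2)).re := by
      intro y hy
      have h1 := (hin (1 / 2) (by norm_num) y hy).2
      have h2 : (∫ a : ℝ, (kf μ 0 y : ℂ) * (Complex.exp ((1 / 2 : ℂ) * a) * (kf μ 0 (y * Real.exp a) : ℂ))) =
          ((∫ a : ℝ, kf μ 0 y * (Real.exp (a / 2) * kf μ 0 (y * Real.exp a)) : ℝ) : ℂ) := by
        rw [← integral_complex_ofReal]
        congr 1
        funext a
        push_cast
        congr 3
        ring
      have h3 : (kf μ 0 y : ℂ) * ((y : ℂ) ^ (-(1 / 2) : ℂ) * GG μ (1 / 2)) =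
          ((kf μ 0 y * y ^ (-(1 / 2) : ℝ) : ℝ) : ℂ) * GG μ (1 / 2) := by
        rw [Complex.ofReal_mul, Complex.ofReal_cpow hy.le, mul_assoc]
        push_cast
        rfl
      rw [h2, h3] at h1
      have h4 := congrArg Complex.re h1
      rw [Complex.ofReal_re, Complex.re_ofReal_mul] at h4
      exact h4
    have hF : Integrable (Function.uncurry fun a y : ℝ => (kf μ 0 y : ℂ) *
        (Complex.exp (s * a) * (kf μ 0 (y * Real.exp a) : ℂ)))
        ((volume : Measure ℝ).prod (volume.restrict (Ioi (0 : ℝ)))) := by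
      refine (integrable_prod_iff' hmf).2 ⟨?_, ?_⟩
      · refine (ae_restrict_iff' measurableSet_Ioi).2 (Filter.Eventually.of_forall fun y hy => ?_)
        exact (hin s (by rw [hsre]; norm_num) y hy).1
      · have h1 : IntegrableOn (fun y : ℝ => kf μ 0 y * y ^ (-(1 / 2) : ℝ) * (GG μ (1 / 2)).re) (Ioi 0) := by
          refine Integrable.mul_const ?_ _
          have h2 := (hmel (1 / 2) (by norm_num)).1.re
          refine IntegrableOn.congr_fun h2 (fun y hy => ?_) measurableSet_Ioi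
          have hy' : 0 < y := hy
          show ((y : ℂ) ^ ((1 / 2 : ℂ) - 1) • (kf μ 0 y : ℂ)).re = kf μ 0 y * y ^ (-(1 / 2) : ℝ)
          have h3 : ((1 / 2 : ℂ) - 1) = ((-(1 / 2) : ℝ) : ℂ) := by
            push_cast
            norm_num
          rw [h3, ← Complex.ofReal_cpow hy'.le, smul_eq_mul, ← Complex.ofReal_mul, Complex.ofReal_re, mul_comm]
        refine IntegrableOn.congr_fun h1 (fun y hy => ?_) measurableSet_Ioi
        have hy' : 0 < y := hy
        refine (hreal y hy').symm.trans ?_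
        refine integral_congr_ae (Filter.Eventually.of_forall fun a => ?_)
        exact (hnorm a y hy').symm
    have hswap := integral_integral_swap hF
    have hleft : ∀ a : ℝ, (∫ y in Ioi (0 : ℝ), (kf μ 0 y : ℂ) * (Complex.exp (s * a) * (kf μ 0 (y * Real.exp a) : ℂ))) =
        (Kc μ a : ℂ) * Complex.exp (((t * a : ℝ) : ℂ) * I) := by
      intro a
      unfold Kc
      rw [Complex.ofReal_mul, ← integral_complex_ofReal]
      have h1 : Complex.exp (s * a) = ((Real.exp (a / 2) : ℝ) : ℂ) * Complex.exp (((t * a : ℝ) : ℂ) * I) := by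
        rw [Complex.ofReal_exp, ← Complex.exp_add]
        congr 1
        rw [hs]
        push_cast
        ring
      have h2 : ∀ y : ℝ, (kf μ 0 y : ℂ) * (Complex.exp (s * a) * (kf μ 0 (y * Real.exp a) : ℂ)) =
          Complex.exp (s * a) * ((kf μ 0 y * kf μ 0 (y * Real.exp a) : ℝ) : ℂ) := by
        intro y
        push_cast
        ring
      simp only [h2]
      rw [integral_const_mul, h1]
      ring
    have hint := hF.integral_prod_left
    simp only [Function.uncurry_apply_pair, hleft] at hint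
    simp only [hleft] at hswap
    have hright : (∫ y in Ioi (0 : ℝ), ∫ a : ℝ, (kf μ 0 y : ℂ) *
        (Complex.exp (s * a) * (kf μ 0 (y * Real.exp a) : ℂ))) = ((gh μ t ^ 2 : ℝ) : ℂ) := by
      have h1 : (∫ y in Ioi (0 : ℝ), ∫ a : ℝ, (kf μ 0 y : ℂ) *
          (Complex.exp (s * a) * (kf μ 0 (y * Real.exp a) : ℂ))) =
          ∫ y in Ioi (0 : ℝ), (y : ℂ) ^ ((1 - s) - 1) • (kf μ 0 y : ℂ) * GG μ s := by
        refine setIntegral_congr_fun measurableSet_Ioi fun y hy => ?_
        have hy' : 0 < y := hy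
        rw [(hin s (by rw [hsre]; norm_num) y hy').2]
        have h3 : (1 - s) - 1 = -s := by ring
        rw [h3, smul_eq_mul]
        ring
      rw [h1, integral_mul_const]
      have h4 := (hmel (1 - s) (by rw [Complex.sub_re, Complex.one_re, hsre]; norm_num)).2
      unfold mellin at h4
      rw [h4, ← hconj, PKA_GG, ← Complex.normSq_eq_conj_mul_self, Complex.normSq_eq_norm_sq]
      rfl
    rw [hright] at hswap
    have h5 := congrArg Complex.re hswap
    rw [Complex.ofReal_re] at h5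
    rw [← h5]
    have h6 := integral_re hint
    have h7 : ∀ a : ℝ, RCLike.re ((Kc μ a : ℂ) * Complex.exp (((t * a : ℝ) : ℂ) * I)) = Kc μ a * Real.cos (t * a) := by
      intro a
      show ((Kc μ a : ℂ) * Complex.exp (((t * a : ℝ) : ℂ) * I)).re = _
      rw [Complex.re_ofReal_mul, Complex.exp_ofReal_mul_I_re]
    simp only [h7] at h6
    exact h6

end Pool.Agent.TA
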