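import Pool.Agent.helper38.TA.SpecK
import Pool.Agent.helper72.BA.VD

/-! # ta:VCD: the functions `V_t` -/

set_option autoImplicit false

open Complex MeasureTheory Set

namespace Pool.Agent.TA

open Pool.Agent.BA (Par GG kl kf vf fV Bw Den PP wt lam gpf rgz VD_bd VD_cont)

theorem VCD_norm (t u a : ℝ) : ‖Complex.exp (((t * u : ℝ) : ℂ) * I) * ((a : ℝ) : ℂ)‖ = |a| := by
  rw [norm_mul, Complex.norm_exp_ofReal_mul_I, one_mul, Complex.norm_real, Real.norm_eq_abs]

theorem VCD_cont (hKD : Pool.Agent.BA.KD_stmt) {n : ℕ} (j : ℕ) {μ : Fin n → ℝ} (hμ : Par 1 μ) (t : ℝ) {x : ℝ}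
    (hx : 0 < x) : Continuous fun u : ℝ => Complex.exp (((t * u : ℝ) : ℂ) * I) *
      ((Real.exp (u / 2) * kf μ j (x * Real.exp u) : ℝ) : ℂ) := by
  have h1 : Continuous fun u : ℝ => Complex.exp (((t * u : ℝ) : ℂ) * I) := by fun_prop
  exact h1.mul (Complex.continuous_ofReal.comp (VD_cont hKD j hμ hx))

theorem VCD (bKC : Pool.Agent.BA.KC_stmt) (bKD : Pool.Agent.BA.KD_stmt) : VCD_stmt := by
  intro n j μ hμ
  have hint : ∀ (j : ℕ) (t x : ℝ), 0 < x →
      IntegrableOn (fun u : ℝ => Complex.exp (((t * u : ℝ) : ℂ) * I) *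
        ((Real.exp (u / 2) * kf μ j (x * Real.exp u) : ℝ) : ℂ)) (Ioi 0) := by
    intro j t x hx
    obtain ⟨C, hC0, hC⟩ := bKC n j μ 1 hμ one_pos
    have hb : IntegrableOn (fun u : ℝ => C * x ^ (-(1 : ℝ)) * Real.exp (-(1 - 1 / 2) * u)) (Ioi 0) :=
      (exp_neg_integrableOn_Ioi 0 (by norm_num : (0 : ℝ) < 1 - 1 / 2)).const_mul _
    refine Integrable.mono' hb (VCD_cont bKD j hμ t hx).aestronglyMeasurable ?_
    refine Filter.Eventually.of_forall fun u => ?_
    rw [VCD_norm]
    exact VD_bd hC hx u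
  refine ⟨fun t x hx => ⟨hint j t x hx, ?_⟩, fun σ hσ => ?_, fun x => ?_, fun t x => ?_⟩
  · obtain ⟨C, hC0, hC⟩ := bKC n (j + 1) μ 1 hμ one_pos
    have h := hasDerivAt_integral_of_dominated_loc_of_deriv_le (μ := volume.restrict (Ioi (0 : ℝ)))
      (F := fun y u : ℝ => Complex.exp (((t * u : ℝ) : ℂ) * I) * ((Real.exp (u / 2) * kf μ j (y * Real.exp u) : ℝ) : ℂ))
      (F' := fun y u : ℝ => Complex.exp (((t * u : ℝ) : ℂ) * I) *
        ((Real.exp (u / 2) * kf μ (j + 1) (y * Real.exp u) / y : ℝ) : ℂ))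
      (x₀ := x) (s := Ioi (x / 2))
      (bound := fun u : ℝ => C * (x / 2) ^ (-(1 : ℝ)) * Real.exp (-(1 - 1 / 2) * u) / (x / 2))
      (Ioi_mem_nhds (by linarith))
      (by
        filter_upwards [Ioi_mem_nhds hx] with y hy
        exact (VCD_cont bKD j hμ t hy).aestronglyMeasurable)
      (hint j t x hx)
      (by
        have h1 : Continuous fun u : ℝ => Complex.exp (((t * u : ℝ) : ℂ) * I) := by fun_prop
        exact (h1.mul (Complex.continuous_ofReal.comp
          ((VD_cont bKD (j + 1) hμ hx).div_const x))).aestronglyMeasurable)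
      (by
        refine Filter.Eventually.of_forall fun u y hy => ?_
        have hy0 : 0 < y := lt_trans (by linarith) (mem_Ioi.1 hy)
        have hy1 : x / 2 < y := hy
        rw [VCD_norm, abs_div, abs_of_pos hy0]
        refine div_le_div₀ (by positivity) ?_ (by linarith) hy1.le
        refine (VD_bd hC hy0 u).trans ?_
        have h1 : y ^ (-(1 : ℝ)) ≤ (x / 2) ^ (-(1 : ℝ)) :=
          Real.rpow_le_rpow_of_nonpos (by linarith) hy1.le (by norm_num)
        have h2 : C * y ^ (-(1 : ℝ)) ≤ C * (x / 2) ^ (-(1 : ℝ)) := mul_le_mul_of_nonneg_left h1 hC0.le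
        exact mul_le_mul_of_nonneg_right h2 (Real.exp_pos _).le)
      (by
        have hb : IntegrableOn (fun u : ℝ => C * (x / 2) ^ (-(1 : ℝ)) * Real.exp (-(1 - 1 / 2) * u)) (Ioi 0) :=
          (exp_neg_integrableOn_Ioi 0 (by norm_num : (0 : ℝ) < 1 - 1 / 2)).const_mul _
        exact hb.div_const _)
      (by
        refine Filter.Eventually.of_forall fun u y hy => ?_
        have hy0 : 0 < y := lt_trans (by linarith) (mem_Ioi.1 hy)
        have hE : 0 < Real.exp u := Real.exp_pos u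
        have h1 := (bKD n j μ hμ (y * Real.exp u) (mul_pos hy0 hE)).1
        have h2 : HasDerivAt (fun y : ℝ => y * Real.exp u) (Real.exp u) y := by
          simpa using (hasDerivAt_id y).mul_const (Real.exp u)
        have h3 := (HasDerivAt.comp (h₂ := kf μ j) (h := fun y : ℝ => y * Real.exp u) y h1 h2).const_mul (Real.exp (u / 2))
        have e : Real.exp (u / 2) * (kf μ (j + 1) (y * Real.exp u) / (y * Real.exp u) * Real.exp u) =
            Real.exp (u / 2) * kf μ (j + 1) (y * Real.exp u) / y := by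
          field_simp
        rw [e] at h3
        exact (h3.ofReal_comp).const_mul _)
    have h4 := h.2
    have e : (∫ u in Ioi (0 : ℝ), Complex.exp (((t * u : ℝ) : ℂ) * I) *
        ((Real.exp (u / 2) * kf μ (j + 1) (x * Real.exp u) / x : ℝ) : ℂ)) = vC μ (j + 1) t x / x := by
      unfold vC
      rw [← integral_div]
      congr 1
      funext u
      rw [Complex.ofReal_div, mul_div_assoc]
    rw [e] at h4
    exact h4
  · obtain ⟨C, hC0, hC⟩ := bKC n j μ σ hμ (by linarith)
    set J : ℝ := ∫ u in Ioi (0 : ℝ), Real.exp (-(σ - 1 / 2) * u) with hJ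
    have hJ0 : 0 ≤ J := integral_nonneg fun u => (Real.exp_pos _).le
    refine ⟨C * J + 1, by positivity, fun t x hx => ?_⟩
    have hx0 : 0 < x ^ (-σ) := Real.rpow_pos_of_pos hx _
    have hb : IntegrableOn (fun u : ℝ => C * x ^ (-σ) * Real.exp (-(σ - 1 / 2) * u)) (Ioi 0) :=
      (exp_neg_integrableOn_Ioi 0 (by linarith : (0 : ℝ) < σ - 1 / 2)).const_mul _
    have h1 : ‖vC μ j t x‖ ≤ ∫ u in Ioi (0 : ℝ), C * x ^ (-σ) * Real.exp (-(σ - 1 / 2) * u) := by
      unfold vC
      refine norm_integral_le_of_norm_le hb (Filter.Eventually.of_forall fun u => ?_)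
      rw [VCD_norm]
      exact VD_bd hC hx u
    rw [integral_const_mul, ← hJ] at h1
    calc ‖vC μ j t x‖ ≤ C * x ^ (-σ) * J := h1
      _ ≤ (C * J + 1) * x ^ (-σ) := by nlinarith
  · unfold vC vf
    rw [← integral_complex_ofReal]
    congr 1
    funext u
    rw [zero_mul, Complex.ofReal_zero, zero_mul, Complex.exp_zero, one_mul]
  · unfold vC
    rw [← integral_conj]
    congr 1
    funext u
    rw [map_mul, Complex.conj_ofReal, ← Complex.exp_conj, map_mul, Complex.conj_ofReal, Complex.conj_I]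
    congr 2
    push_cast
    ring

end Pool.Agent.TA
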